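import Mathlib

namespace BC970

open CategoryTheory

open scoped TensorProduct

section basechange

variable {Λ R : Type} [Ring Λ] [Ring R] (f : Λ →+* R)

/-- The relations `(r f(l)) ⊗ m = r ⊗ (l m)`. -/
def rel (M : Type) [AddCommGroup M] [Module Λ M] : Submodule R (R ⊗[ℤ] M) :=
  Submodule.span R {x | ∃ (r : R) (l : Λ) (m : M), x = (r * f l) ⊗ₜ[ℤ] m - r ⊗ₜ[ℤ] (l • m)}

/-- The left `R`-module `R ⊗_Λ M` for a homomorphism `f : Λ → R` of (noncommutative) rings. -/
abbrev obj (M : Type) [AddCommGroup M] [Module Λ M] : Type := (R ⊗[ℤ] M) ⧸ rel f M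

/-- The `R`-linear map `R ⊗_ℤ M → R ⊗_ℤ M'` induced by a `Λ`-linear map. -/
noncomputable def map0 {M M' : Type} [AddCommGroup M] [Module Λ M] [AddCommGroup M']
    [Module Λ M'] (g : M →ₗ[Λ] M') : (R ⊗[ℤ] M) →ₗ[R] (R ⊗[ℤ] M') :=
  TensorProduct.AlgebraTensorModule.map (LinearMap.id : R →ₗ[R] R) g.toAddMonoidHom.toIntLinearMap

theorem map0_tmul {M M' : Type} [AddCommGroup M] [Module Λ M] [AddCommGroup M']
    [Module Λ M'] (g : M →ₗ[Λ] M') (r : R) (m : M) :
    map0 (R := R) g (r ⊗ₜ[ℤ] m) = r ⊗ₜ[ℤ] (g m) := rfl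

theorem map0_rel {M M' : Type} [AddCommGroup M] [Module Λ M] [AddCommGroup M']
    [Module Λ M'] (g : M →ₗ[Λ] M') : rel f M ≤ (rel f M').comap (map0 g) := by
  refine Submodule.span_le.2 ?_
  rintro x ⟨r, l, m, rfl⟩
  simp only [SetLike.mem_coe, Submodule.mem_comap, map_sub, map0_tmul, map_smul]
  exact Submodule.subset_span ⟨r, l, g m, rfl⟩

/-- The map `R ⊗_Λ M → R ⊗_Λ M'`. -/
noncomputable def map {M M' : Type} [AddCommGroup M] [Module Λ M] [AddCommGroup M']
    [Module Λ M'] (g : M →ₗ[Λ] M') : obj f M →ₗ[R] obj f M' :=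
  Submodule.mapQ _ _ (map0 g) (map0_rel f g)

theorem map_mk {M M' : Type} [AddCommGroup M] [Module Λ M] [AddCommGroup M']
    [Module Λ M'] (g : M →ₗ[Λ] M') (x : R ⊗[ℤ] M) :
    map f g (Submodule.Quotient.mk x) = Submodule.Quotient.mk (map0 g x) := rfl

theorem ext_obj {M : Type} [AddCommGroup M] [Module Λ M] {Y : Type} [AddCommGroup Y] [Module R Y]
    {g h : obj f M →ₗ[R] Y}
    (H : ∀ m : M, g (Submodule.Quotient.mk (1 ⊗ₜ[ℤ] m)) = h (Submodule.Quotient.mk (1 ⊗ₜ[ℤ] m))) :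
    g = h := by
  apply LinearMap.ext
  intro x
  induction x using Submodule.Quotient.induction_on with
  | H x =>
    induction x using TensorProduct.induction_on with
    | zero => simp
    | tmul r m =>
      have e : (r ⊗ₜ[ℤ] m : R ⊗[ℤ] M) = r • (1 ⊗ₜ[ℤ] m) := by
        rw [TensorProduct.smul_tmul']; simp
      rw [e, Submodule.Quotient.mk_smul, map_smul, map_smul, H m]
    | add x y hx hy => rw [Submodule.Quotient.mk_add, map_add, map_add, hx, hy]

/-- The functor `R ⊗_Λ -` from left `Λ`-modules to left `R`-modules. -/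
noncomputable def functor : ModuleCat.{0} Λ ⥤ ModuleCat.{0} R where
  obj M := ModuleCat.of R (obj f M)
  map g := ModuleCat.ofHom (map f g.hom)
  map_id _ := by
    apply ModuleCat.hom_ext
    apply ext_obj
    intro m
    rfl
  map_comp _ _ := by
    apply ModuleCat.hom_ext
    apply ext_obj
    intro m
    rfl

instance functor_additive : (functor f).Additive where
  map_add {M M' g h} := by
    apply ModuleCat.hom_ext
    apply ext_obj
    intro m
    change (Submodule.Quotient.mk ((1 : R) ⊗ₜ[ℤ] (g.hom m + h.hom m)) : obj f M') =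
      Submodule.Quotient.mk ((1 : R) ⊗ₜ[ℤ] (g.hom m)) +
        Submodule.Quotient.mk ((1 : R) ⊗ₜ[ℤ] (h.hom m))
    rw [← Submodule.Quotient.mk_add, TensorProduct.tmul_add]

end basechange

section trivial

variable (K : Type) [Group K]

/-- The augmentation `ℤ[K] → ℤ`. -/
noncomputable def aug : MonoidAlgebra ℤ K →+* ℤ :=
  (MonoidAlgebra.lift ℤ ℤ K (1 : K →* ℤ)).toRingHom

/-- The group `ℤ`, regarded as a trivial `ℤ[K]`-module. -/
def Triv (_K : Type) : Type := ℤ

instance (K : Type) : AddCommGroup (Triv K) := inferInstanceAs (AddCommGroup ℤ)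

noncomputable instance : Module (MonoidAlgebra ℤ K) (Triv K) :=
  Module.compHom ℤ (aug K)

/-- `Tor_n^{ℤ[K]}(R, ℤ)`: the group homology `H_n(K; R)` as a left `R`-module, for a ring
homomorphism `f : ℤ[K] → R`. -/
noncomputable def tor {R : Type} [Ring R] (f : MonoidAlgebra ℤ K →+* R) (n : ℕ) :
    ModuleCat.{0} R :=
  ((functor f).leftDerived n).obj (ModuleCat.of (MonoidAlgebra ℤ K) (Triv K))

end trivial


section resolution

/-- A resolution of the trivial module `ℤ` by finitely generated free left `ℤ[Γ]`-modules,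
written with matrices (row vectors, right multiplication). -/
structure FreeRes (Γ : Type) [Group Γ] where
  r : ℕ → ℕ
  d : ∀ n, Matrix (Fin (r (n + 1))) (Fin (r n)) (MonoidAlgebra ℤ Γ)
  ε : (Fin (r 0) → MonoidAlgebra ℤ Γ) →+ ℤ
  ε_smul : ∀ (g : Γ) (v : Fin (r 0) → MonoidAlgebra ℤ Γ),
    ε (fun i => MonoidAlgebra.of ℤ Γ g * v i) = ε v
  ε_surj : Function.Surjective ε
  exact_zero : ∀ v, ε v = 0 ↔ ∃ w, v = Matrix.vecMul w (d 0)
  exact_succ : ∀ n v, Matrix.vecMul v (d n) = 0 ↔ ∃ w, v = Matrix.vecMul w (d (n + 1))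

variable {Γ : Type} [Group Γ]

/-- The inclusion `ℤ[K] → ℤ[Γ]`. -/
noncomputable def inc (K : Subgroup Γ) : MonoidAlgebra ℤ K →+* MonoidAlgebra ℤ Γ :=
  MonoidAlgebra.mapDomainRingHom ℤ K.subtype

/-- `ℤ[Γ]^r` as a left module over `ℤ[K]`. -/
def RM (_K : Subgroup Γ) (r : ℕ) : Type := Fin r → MonoidAlgebra ℤ Γ

noncomputable instance (K : Subgroup Γ) (r : ℕ) : AddCommGroup (RM K r) :=
  inferInstanceAs (AddCommGroup (Fin r → MonoidAlgebra ℤ Γ))

noncomputable instance (K : Subgroup Γ) (r : ℕ) : Module (MonoidAlgebra ℤ K) (RM K r) :=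
  Module.compHom (Fin r → MonoidAlgebra ℤ Γ) (inc K)

/-- Right multiplication with a matrix. -/
noncomputable def dm (K : Subgroup Γ) {a b : ℕ}
    (M : Matrix (Fin a) (Fin b) (MonoidAlgebra ℤ Γ)) :
    RM K a →ₗ[MonoidAlgebra ℤ K] RM K b where
  toFun v := Matrix.vecMul (show Fin a → MonoidAlgebra ℤ Γ from v) M
  map_add' v w := Matrix.add_vecMul _ _ _
  map_smul' c v := Matrix.smul_vecMul (inc K c) (show Fin a → MonoidAlgebra ℤ Γ from v) M

theorem dm_comp (C : FreeRes Γ) (K : Subgroup Γ) (n : ℕ) :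
    (dm K (C.d n)).comp (dm K (C.d (n + 1))) = 0 := by
  apply LinearMap.ext
  intro v
  change Matrix.vecMul (Matrix.vecMul v (C.d (n + 1))) (C.d n) = 0
  exact (C.exact_succ n _).2 ⟨v, rfl⟩

/-- The chain complex of `ℤ[K]`-modules given by a free resolution over `ℤ[Γ]`. -/
noncomputable def resC (C : FreeRes Γ) (K : Subgroup Γ) :
    ChainComplex (ModuleCat.{0} (MonoidAlgebra ℤ K)) ℕ :=
  ChainComplex.of (fun n => ModuleCat.of (MonoidAlgebra ℤ K) (RM K (C.r n)))
    (fun n => ModuleCat.ofHom (dm K (C.d n)))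
    (fun n => by
      rw [← ModuleCat.ofHom_comp, dm_comp]
      rfl)

end resolution

section explicit

/-- Cycles in `E^b`: row vectors annihilated by right multiplication with `B`. -/
def ZE {R W : Type} [Ring R] [Ring W] [Module R W] [IsScalarTower R W W] (E : Submodule R W)
    {b c : ℕ} (B : Matrix (Fin b) (Fin c) W) : Submodule R (Fin b → W) where
  carrier := {v | (∀ i, v i ∈ E) ∧ Matrix.vecMul v B = 0}
  add_mem' := by
    rintro v w ⟨h1, h2⟩ ⟨h3, h4⟩
    exact ⟨fun i => E.add_mem (h1 i) (h3 i), by rw [Matrix.add_vecMul, h2, h4, add_zero]⟩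
  zero_mem' := ⟨fun i => E.zero_mem, by simp⟩
  smul_mem' := by
    rintro x v ⟨h1, h2⟩
    refine ⟨fun i => E.smul_mem _ (h1 i), ?_⟩
    rw [Matrix.smul_vecMul, h2, smul_zero]

/-- Boundaries: the row vectors `w A` with `w` in `E^a`. -/
def BE {R W : Type} [Ring R] [Ring W] [Module R W] [IsScalarTower R W W] (E : Submodule R W)
    {a b : ℕ} (A : Matrix (Fin a) (Fin b) W) : Submodule R (Fin b → W) where
  carrier := {v | ∃ w : Fin a → W, (∀ i, w i ∈ E) ∧ v = Matrix.vecMul w A}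
  add_mem' := by
    rintro v w ⟨x, h1, h2⟩ ⟨y, h3, h4⟩
    exact ⟨x + y, fun i => E.add_mem (h1 i) (h3 i), by rw [Matrix.add_vecMul, h2, h4]⟩
  zero_mem' := ⟨0, fun i => E.zero_mem, by simp⟩
  smul_mem' := by
    rintro x v ⟨y, h1, h2⟩
    refine ⟨x • y, fun i => E.smul_mem _ (h1 i), ?_⟩
    rw [Matrix.smul_vecMul, h2]

/-- The homology of `E^a → E^b → E^c`. -/
abbrev HE {R W : Type} [Ring R] [Ring W] [Module R W] [IsScalarTower R W W] (E : Submodule R W)
    {a b c : ℕ} (A : Matrix (Fin a) (Fin b) W) (B : Matrix (Fin b) (Fin c) W) : Type :=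
  (ZE E B) ⧸ ((BE E A).submoduleOf (ZE E B))

/-- The ring homomorphism `ℤ[Γ] → W` given by a homomorphism to the units of `W`. -/
noncomputable def evW {Γ : Type} [Group Γ] {W : Type} [Ring W] (lam : Γ →* Wˣ) :
    MonoidAlgebra ℤ Γ →+* W :=
  (MonoidAlgebra.lift ℤ W Γ ((Units.coeHom W).comp lam)).toRingHom

/-- The `R`-span of the image of `Γ` in `W`. -/
def EW (R : Type) [Ring R] {Γ : Type} [Group Γ] {W : Type} [Ring W] [Module R W]
    (lam : Γ →* Wˣ) : Submodule R W :=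
  Submodule.span R (Set.range fun g : Γ => ((lam g : Wˣ) : W))

/-- Elements of `lam Γ` in different cosets of `K` are left `R`-independent. -/
def CosetInd (R : Type) [Ring R] {Γ : Type} [Group Γ] {W : Type} [Ring W] [Module R W]
    (lam : Γ →* Wˣ) (K : Subgroup Γ) : Prop :=
  ∀ (s : Finset Γ) (r : Γ → R), (∀ g ∈ s, ∀ h ∈ s, g ≠ h → g * h⁻¹ ∉ K) →
    ∑ g ∈ s, r g • ((lam g : Wˣ) : W) = 0 → ∀ g ∈ s, r g = 0

end explicit

end BC970
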